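import Mathlib

set_option autoImplicit false
set_option linter.unusedSectionVars false

namespace Pool.Agent.H488Z.Gen

open Set Topology Filter
open scoped ContDiff

variable {E F G : Type*} [NormedAddCommGroup E] [NormedSpace ℝ E] [NormedAddCommGroup F]
  [NormedSpace ℝ F] [NormedAddCommGroup G] [NormedSpace ℝ G]

lemma tendsto_taylorComp {α : Type*} {l : Filter α} {q : α → FormalMultilinearSeries ℝ F G}
    {p : α → FormalMultilinearSeries ℝ E F} {q₀ : FormalMultilinearSeries ℝ F G}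
    {p₀ : FormalMultilinearSeries ℝ E F} {k : ℕ}
    (hq : ∀ j ≤ k, Tendsto (fun a => q a j) l (𝓝 (q₀ j)))
    (hp : ∀ j ≤ k, Tendsto (fun a => p a j) l (𝓝 (p₀ j))) :
    Tendsto (fun a => (q a).taylorComp (p a) k) l (𝓝 (q₀.taylorComp p₀ k)) := by
  have h := FormalMultilinearSeries.taylorComp_sub_taylorComp_isLittleO (l := l) (p₁ := q)
    (p₂ := fun _ => q₀) (q₁ := p) (q₂ := fun _ => p₀) (f := fun _ => (1 : ℝ)) (n := k)
    (fun j hj => (hq j hj).norm.isBoundedUnder_le)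
    (fun j hj => (Asymptotics.isLittleO_one_iff ℝ).2 (tendsto_sub_nhds_zero_iff.2 (hq j hj)))
    (fun j hj => (hp j hj).norm.isBoundedUnder_le)
    (fun j _ => tendsto_const_nhds.isBoundedUnder_le)
    (fun j hj => (Asymptotics.isLittleO_one_iff ℝ).2 (tendsto_sub_nhds_zero_iff.2 (hp j hj)))
  exact tendsto_sub_nhds_zero_iff.1 ((Asymptotics.isLittleO_one_iff ℝ).1 h)

lemma tendsto_iteratedFDeriv_comp {α : Type*} {l : Filter α} {v : α → F → G} {u : α → E → F}
    {w : α → E} {v₀ : F → G} {u₀ : E → F} {w₀ : E} {k : ℕ}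
    (hv : ∀ᶠ a in l, ContDiffAt ℝ k (v a) (u a (w a))) (hu : ∀ᶠ a in l, ContDiffAt ℝ k (u a) (w a))
    (hv₀ : ContDiffAt ℝ k v₀ (u₀ w₀)) (hu₀ : ContDiffAt ℝ k u₀ w₀)
    (tv : ∀ j ≤ k, Tendsto (fun a => iteratedFDeriv ℝ j (v a) (u a (w a))) l
      (𝓝 (iteratedFDeriv ℝ j v₀ (u₀ w₀))))
    (tu : ∀ j ≤ k, Tendsto (fun a => iteratedFDeriv ℝ j (u a) (w a)) l
      (𝓝 (iteratedFDeriv ℝ j u₀ w₀))) :
    Tendsto (fun a => iteratedFDeriv ℝ k (v a ∘ u a) (w a)) l
      (𝓝 (iteratedFDeriv ℝ k (v₀ ∘ u₀) w₀)) := by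
  rw [iteratedFDeriv_comp hv₀ hu₀ le_rfl]
  refine (tendsto_taylorComp (q := fun a => ftaylorSeries ℝ (v a) (u a (w a)))
    (p := fun a => ftaylorSeries ℝ (u a) (w a)) tv tu).congr' ?_
  filter_upwards [hv, hu] with a h1 h2
  rw [iteratedFDeriv_comp h1 h2 le_rfl]

lemma smooth_limit {U : Set E} (hU : IsOpen U) {r : ℕ → E → F} {r₀ : E → F}
    {p : ∀ j : ℕ, E → E [×j]→L[ℝ] F} (hr : ∀ n, ContDiffOn ℝ ∞ (r n) U)
    (hp : ∀ j, TendstoUniformlyOn (fun n => iteratedFDeriv ℝ j (r n)) (p j) atTop U)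
    (h0 : ∀ w ∈ U, Tendsto (fun n => r n w) atTop (𝓝 (r₀ w))) :
    ContDiffOn ℝ ∞ r₀ U ∧ ∀ j, ∀ w ∈ U, iteratedFDeriv ℝ j r₀ w = p j w := by
  have hd : ∀ m, ∀ w ∈ U, HasFDerivAt (p m) (p (m + 1) w).curryLeft w := by
    intro m w hw
    apply hasFDerivAt_of_tendstoUniformlyOn (l := atTop) (f := fun n => iteratedFDeriv ℝ m (r n))
      (f' := fun n w => (iteratedFDeriv ℝ (m + 1) (r n) w).curryLeft)
      (g' := fun w => (p (m + 1) w).curryLeft) hU
    · exact (continuousMultilinearCurryLeftEquiv ℝ (fun _ : Fin (m + 1) => E)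
        F).isometry.uniformContinuous.comp_tendstoUniformlyOn (hp (m + 1))
    · intro n x hx
      have h1 : ContDiffAt ℝ ∞ (r n) x := (hr n).contDiffAt (hU.mem_nhds hx)
      have h2 : DifferentiableAt ℝ (iteratedFDeriv ℝ m (r n)) x :=
        h1.differentiableAt_iteratedFDeriv (by exact_mod_cast ENat.natCast_lt_top m)
      have h3 := h2.hasFDerivAt
      rw [fderiv_iteratedFDeriv] at h3
      exact h3
    · exact fun x hx => (hp m).tendsto_at hx
    · exact hw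
  have hT : HasFTaylorSeriesUpToOn ∞ r₀ (fun w j => p j w) U := by
    refine ⟨fun w hw => ?_, fun m _ w hw => (hd m w hw).hasFDerivWithinAt,
      fun m _ w hw => (hd m w hw).continuousAt.continuousWithinAt⟩
    have h1 := ((continuousMultilinearCurryFin0 ℝ E F).continuous.tendsto _).comp
      ((hp 0).tendsto_at hw)
    exact tendsto_nhds_unique h1 (h0 w hw)
  refine ⟨hT.contDiffOn, fun j w hw => ?_⟩
  rw [← iteratedFDerivWithin_of_isOpen j hU hw]
  exact (hT.eq_iteratedFDerivWithin_of_uniqueDiffOn (by exact_mod_cast le_top) hU.uniqueDiffOn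
    hw).symm

end Pool.Agent.H488Z.Gen
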