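import Mathlib
import Pool.Agent.H903Z.SS.Sel

set_option autoImplicit false
set_option linter.unusedSectionVars false

namespace Pool.Agent.H488Z.Gen

open Set Topology Filter MeasureTheory

section Nik
variable {X : Type*} [TopologicalSpace X]

/-- The points at which `P` is not locally meagre. -/
def Dm (P : Set X) : Set X := (⋃₀ {U | IsOpen U ∧ IsMeagre (U ∩ P)})ᶜ

lemma isClosed_Dm (P : Set X) : IsClosed (Dm P) :=
  (isOpen_sUnion fun _ h => h.1).isClosed_compl

lemma not_mem_Dm {P U : Set X} (hU : IsOpen U) (h : IsMeagre (U ∩ P)) {x : X} (hx : x ∈ U) :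
    x ∉ Dm P := fun h' => h' ⟨U, ⟨hU, h⟩, hx⟩

lemma Dm_subset (P : Set X) : Dm P ⊆ closure P := by
  intro x hx
  by_contra h
  refine not_mem_Dm isClosed_closure.isOpen_compl ?_ h hx
  have : (closure P)ᶜ ∩ P = ∅ := by
    ext y
    exact ⟨fun hy => hy.1 (subset_closure hy.2), fun hy => hy.elim⟩
  rw [this]
  exact IsMeagre.empty

variable [SecondCountableTopology X]

lemma meagre_diff_Dm (P : Set X) : IsMeagre (P \ Dm P) := by
  obtain ⟨T, hT, hTS, hU⟩ := TopologicalSpace.isOpen_sUnion_countable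
    {U | IsOpen U ∧ IsMeagre (U ∩ P)} (fun _ h => h.1)
  refine (isMeagre_biUnion hT (f := fun U => U ∩ P) fun U hU => (hTS hU).2).mono ?_
  rintro x ⟨hx, hx'⟩
  rw [Dm, notMem_compl_iff, ← hU] at hx'
  obtain ⟨U, hU1, hU2⟩ := hx'
  exact mem_biUnion hU1 ⟨hU2, hx⟩

lemma meagre_Dm_iUnion (P : ℕ → Set X) : IsMeagre (Dm (⋃ n, P n) \ ⋃ n, Dm (P n)) := by
  borelize X
  have hQ : MeasurableSet (Dm (⋃ n, P n) \ ⋃ n, Dm (P n)) :=
    (isClosed_Dm _).measurableSet.diff
      (MeasurableSet.iUnion fun n => (isClosed_Dm _).measurableSet)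
  obtain ⟨O, hO, hQO⟩ := hQ.residualEq_isOpen
  have h1 : IsMeagre {x | ¬ (x ∈ Dm (⋃ n, P n) \ ⋃ n, Dm (P n) ↔ x ∈ O)} := by
    rw [IsMeagre]
    filter_upwards [hQO] with x hx
    exact fun h => h (iff_of_eq hx)
  have h2 : IsMeagre (O ∩ ⋃ n, P n) := by
    refine (h1.union (isMeagre_iUnion fun n => meagre_diff_Dm (P n))).mono ?_
    rintro x ⟨hxO, hx⟩
    obtain ⟨n, hn⟩ := mem_iUnion.1 hx
    by_cases h : x ∈ Dm (P n)
    · left
      exact fun h' => (h'.2 hxO).2 (mem_iUnion.2 ⟨n, h⟩)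
    · right
      exact mem_iUnion.2 ⟨n, hn, h⟩
  refine h1.mono ?_
  intro x hx h
  exact not_mem_Dm hO h2 (h.1 hx) hx.1

theorem analytic_residualEq [T3Space X] {A : Set X} (hA : AnalyticSet A) :
    ∃ O : Set X, IsOpen O ∧ ∀ᶠ x in residual X, (x ∈ A ↔ x ∈ O) := by
  rw [AnalyticSet] at hA
  rcases hA with rfl | ⟨f, hf, rfl⟩
  · exact ⟨∅, isOpen_empty, Eventually.of_forall fun _ => Iff.rfl⟩
  let B : List ℕ → Set X := fun l => f '' {y | PiNat.res y l.length = l}
  have hB : ∀ l, B l = ⋃ k, B (k :: l) := by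
    intro l
    ext x
    simp only [B, mem_iUnion, mem_image, mem_ofPred_eq, List.length_cons, PiNat.res_succ,
      List.cons.injEq]
    constructor
    · rintro ⟨y, h1, h2⟩
      exact ⟨y l.length, y, ⟨rfl, h1⟩, h2⟩
    · rintro ⟨k, y, h1, h2⟩
      exact ⟨y, h1.2, h2⟩
  have hB0 : B [] = range f := by simp [B]
  have hN : IsMeagre (⋃ l, Dm (B l) \ ⋃ k, Dm (B (k :: l))) := by
    apply isMeagre_iUnion
    intro l
    have := meagre_Dm_iUnion (fun k => B (k :: l))
    rwa [← hB l] at this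
  have key : ∀ x ∈ Dm (B []), x ∉ (⋃ l, Dm (B l) \ ⋃ k, Dm (B (k :: l))) → x ∈ range f := by
    intro x hx hx'
    have h1 : ∀ l, ∃ k, x ∈ Dm (B l) → x ∈ Dm (B (k :: l)) := by
      intro l
      by_cases h : x ∈ Dm (B l)
      · by_contra hcon
        push Not at hcon
        exact hx' (mem_iUnion.2 ⟨l, h, fun h2 => by
          obtain ⟨k, hk⟩ := mem_iUnion.1 h2
          exact (hcon k).2 hk⟩)
      · exact ⟨0, fun h' => absurd h' h⟩
    choose c hc using h1
    let L : ℕ → List ℕ := fun n => Nat.rec [] (fun _ l => c l :: l) n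
    let y : ℕ → ℕ := fun n => c (L n)
    have hL : ∀ n, PiNat.res y n = L n := by
      intro n
      induction n with
      | zero => rfl
      | succ n ih => rw [PiNat.res_succ, ih]
    have hx2 : ∀ n, x ∈ Dm (B (L n)) := by
      intro n
      induction n with
      | zero => exact hx
      | succ n ih => exact hc _ ih
    refine ⟨y, ?_⟩
    by_contra hne
    obtain ⟨C, hC, hCc, hCx⟩ := exists_mem_nhds_isClosed_subset
      (isOpen_compl_singleton.mem_nhds hne : ({x}ᶜ : Set X) ∈ 𝓝 (f y))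
    obtain ⟨_, ⟨z, n, rfl⟩, hy, hsub⟩ :=
      (PiNat.isTopologicalBasis_cylinders (fun _ : ℕ => ℕ)).mem_nhds_iff.1
        (hf.continuousAt.preimage_mem_nhds hC)
    have h3 : B (L n) ⊆ C := by
      rintro _ ⟨w, hw, rfl⟩
      apply hsub
      rw [← PiNat.mem_cylinder_iff_eq.1 hy, PiNat.cylinder_eq_res]
      have h4 : PiNat.res w (L n).length = L n := hw
      rw [← hL n, PiNat.res_length] at h4
      exact h4
    exact hCx (closure_minimal h3 hCc (Dm_subset _ (hx2 n))) rfl
  borelize X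
  obtain ⟨O, hO, hO2⟩ := (isClosed_Dm (B [])).measurableSet.residualEq_isOpen
  refine ⟨O, hO, ?_⟩
  filter_upwards [hO2, hN, meagre_diff_Dm (B [])] with x h1 h2 h3
  have h4 : x ∈ Dm (B []) ↔ x ∈ O := iff_of_eq h1
  rw [← h4]
  constructor
  · intro h
    by_contra h'
    exact h3 ⟨hB0 ▸ h, h'⟩
  · exact fun h => key x h h2

end Nik

lemma polish_of_isGδ {X : Type*} [TopologicalSpace X] [PolishSpace X] {s : Set X} (hs : IsGδ s) :
    PolishSpace s := by
  obtain ⟨f, hf, rfl⟩ := isGδ_iff_eq_iInter_nat.1 hs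
  have : ∀ n, PolishSpace (f n) := fun n => (hf n).polishSpace
  let e : (⋂ n, f n : Set X) → (∀ n, f n) := fun x n => ⟨x.1, mem_iInter.1 x.2 n⟩
  have hc : Continuous e := continuous_pi fun n => continuous_subtype_val.subtype_mk _
  have hp : Continuous fun y : (∀ n, f n) => (y 0).1 :=
    continuous_subtype_val.comp (continuous_apply 0)
  have he : IsEmbedding e := IsEmbedding.of_comp hc hp IsEmbedding.subtypeVal
  refine IsClosedEmbedding.polishSpace (f := e) ⟨he, ?_⟩
  have : range e = ⋂ n, {y : (∀ n, f n) | (y n).1 = (y 0).1} := by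
    ext y
    simp only [mem_range, mem_iInter, mem_ofPred_eq]
    constructor
    · rintro ⟨x, rfl⟩ n
      rfl
    · intro h
      refine ⟨⟨(y 0).1, mem_iInter.2 fun n => h n ▸ (y n).2⟩, funext fun n => Subtype.ext ?_⟩
      exact (h n).symm
  rw [this]
  exact isClosed_iInter fun n => isClosed_eq
    (continuous_subtype_val.comp (continuous_apply n)) hp

/-- The pullback of an orbit equivalence relation of a Polish group is Borel on a dense `Gδ`. -/
theorem generic_borel {D H Y : Type*} [TopologicalSpace D] [PolishSpace D] [Group H]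
    [TopologicalSpace H] [IsTopologicalGroup H] [PolishSpace H] [TopologicalSpace Y]
    [PolishSpace Y] [MulAction H Y] [ContinuousSMul H Y] (π : D → Y) (hπ : Continuous π) :
    ∃ G : Set D, IsGδ G ∧ Dense G ∧ @MeasurableSet _ (borel (D × D))
      {p | p.1 ∈ G ∧ p.2 ∈ G ∧ ∃ h : H, h • π p.1 = π p.2} := by
  have hA : ∀ V : TopologicalSpace.countableBasis H,
      AnalyticSet {x : D | ∃ k ∈ V.1, k • π x = π x} := by
    intro V
    borelize (D × H)
    have h1 : MeasurableSet {q : D × H | q.2 ∈ V.1 ∧ q.2 • π q.1 = π q.1} :=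
      ((TopologicalSpace.isOpen_of_mem_countableBasis V.2).preimage
        continuous_snd).measurableSet.inter (isClosed_eq
          (continuous_snd.smul (hπ.comp continuous_fst)) (hπ.comp continuous_fst)).measurableSet
    have h2 := h1.analyticSet.image_of_continuous continuous_fst
    convert h2 using 1
    ext x
    simp
  let _ := TopologicalSpace.upgradeIsCompletelyMetrizable D
  choose O hO hO2 using fun V => analytic_residualEq (hA V)
  obtain ⟨G, hG1, hG2, hG3⟩ := eventually_residual.1 (eventually_countable_forall.2 hO2)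
  refine ⟨G, hG1, hG2, ?_⟩
  have := polish_of_isGδ hG1
  let φ : G × H → D × Y := fun q => (q.1.1, q.2 • π q.1.1)
  have hv : Continuous fun q : G × H => q.1.1 := continuous_subtype_val.comp continuous_fst
  have hφ : Continuous φ := hv.prodMk (continuous_snd.smul (hπ.comp hv))
  borelize (D × Y)
  have hr : MeasurableSet (range φ) := by
    apply Pool.Agent.H903Z.SS.measurableSet_range φ hφ
    intro U hU
    rw [isOpen_iff_mem_nhds]
    rintro ⟨x, h⟩ ⟨⟨x', h'⟩, hU', e⟩
    obtain rfl : x' = x := Subtype.ext (congrArg Prod.fst e)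
    have e2 : h' • π x'.1 = h • π x'.1 := congrArg Prod.snd e
    have hm : Continuous fun q : (G × H) × H => (q.1.1, q.1.2 * q.2) := by fun_prop
    have h1 : (fun q : (G × H) × H => (q.1.1, q.1.2 * q.2)) ⁻¹' U ∈ 𝓝 ((x', h), h⁻¹ * h') := by
      apply (hU.preimage hm).mem_nhds
      simpa using hU'
    obtain ⟨W, hW, V, hV, hWV⟩ := mem_nhds_prod_iff.1 h1
    obtain ⟨V', hV'1, hV'2, hV'3⟩ := (TopologicalSpace.isBasis_countableBasis H).mem_nhds_iff.1 hV
    have h2 : x'.1 ∈ O ⟨V', hV'1⟩ := by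
      apply (hG3 _ x'.2 ⟨V', hV'1⟩).1
      exact ⟨h⁻¹ * h', hV'2, by rw [mul_smul, e2, inv_smul_smul]⟩
    filter_upwards [hW, ((hO ⟨V', hV'1⟩).preimage hv).mem_nhds h2] with q hq1 hq2
    obtain ⟨k, hk1, hk2⟩ := (hG3 _ q.1.2 ⟨V', hV'1⟩).2 hq2
    refine ⟨(q.1, q.2 * k), hWV (mk_mem_prod hq1 (hV'3 hk1) : (q, k) ∈ W ×ˢ V), ?_⟩
    simp only [φ, mul_smul, hk2]
  borelize (D × D)
  have h1 : Measurable fun p : D × D => (p.1, π p.2) :=
    (continuous_fst.prodMk (hπ.comp continuous_snd)).measurable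
  have h2 : MeasurableSet {p : D × D | p.2 ∈ G} := (hG1.preimage continuous_snd).measurableSet
  convert h2.inter (h1 hr) using 1
  ext p
  simp only [mem_ofPred_eq, mem_inter_iff, mem_preimage, mem_range, φ, Prod.mk.injEq, Prod.exists,
    Subtype.exists]
  constructor
  · rintro ⟨h1, h2, h, h3⟩
    exact ⟨h2, p.1, h1, h, rfl, h3⟩
  · rintro ⟨h2, x, h1, h, rfl, h3⟩
    exact ⟨h1, h2, h, h3⟩

end Pool.Agent.H488Z.Gen
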