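import Pool.Agent.H488Z.Gen.Calc

set_option autoImplicit false
set_option linter.unusedSectionVars false

namespace Pool.Agent.H488Z.Gen

open Set Topology Filter
open scoped ContDiff Manifold

variable {E : Type} [NormedAddCommGroup E] [NormedSpace ℝ E]
  {M : Type} [TopologicalSpace M] [ChartedSpace E M] [IsManifold 𝓘(ℝ, E) ∞ M]

/-- Smooth diffeomorphisms. -/
abbrev Df (E : Type) [NormedAddCommGroup E] [NormedSpace ℝ E] (M : Type) [TopologicalSpace M]
  [ChartedSpace E M] : Type := Diffeomorph 𝓘(ℝ, E) 𝓘(ℝ, E) M M ∞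

/-- The preferred chart. -/
noncomputable abbrev ch (E : Type) [NormedAddCommGroup E] [NormedSpace ℝ E] {M : Type}
  [TopologicalSpace M] [ChartedSpace E M] (x : M) : PartialEquiv M E := extChartAt 𝓘(ℝ, E) x

/-- Local representative. -/
noncomputable def rep (x : M) (F : M → E) (g : M → M) : E → E := fun w => F (g ((ch E x).symm w))

/-- Jets of the local representative. -/
noncomputable def jet (j : ℕ) (x : M) (F : M → E) (g : M → M) (z : M) : E [×j]→L[ℝ] E :=
  iteratedFDeriv ℝ j (rep x F g) (ch E x z)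

lemma ch_symm {x z : M} (hz : z ∈ (chartAt E x).source) : (ch E x).symm (ch E x z) = z :=
  (ch E x).left_inv (by rwa [extChartAt_source])

lemma ch_mem {x z : M} (hz : z ∈ (chartAt E x).source) : ch E x z ∈ (ch E x).target :=
  (ch E x).map_source (by rwa [extChartAt_source])

lemma rep_ch {x z : M} (hz : z ∈ (chartAt E x).source) (F : M → E) (g : M → M) :
    rep x F g (ch E x z) = F (g z) := by
  unfold rep
  rw [ch_symm hz]

lemma symm_smooth {x z : M} (hz : z ∈ (chartAt E x).source) :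
    ContMDiffAt 𝓘(ℝ, E) 𝓘(ℝ, E) ∞ (ch E x).symm (ch E x z) :=
  (contMDiffOn_extChartAt_symm x).contMDiffAt (extChartAt_target_mem_nhds' (ch_mem hz))

lemma tendsto_symm {x z : M} (hz : z ∈ (chartAt E x).source) :
    Tendsto (ch E x).symm (𝓝 (ch E x z)) (𝓝 z) := by
  have := (symm_smooth hz).continuousAt.tendsto
  rwa [ch_symm hz] at this

lemma contAt_ch {x z : M} (hz : z ∈ (chartAt E x).source) : ContinuousAt (ch E x) z :=
  (contMDiffAt_extChartAt' (I := 𝓘(ℝ, E)) (n := ∞) hz).continuousAt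

lemma rep_smooth {x z : M} (hz : z ∈ (chartAt E x).source) {F : M → E} {g : M → M}
    (hg : ContMDiffAt 𝓘(ℝ, E) 𝓘(ℝ, E) ∞ g z) (hF : ContMDiffAt 𝓘(ℝ, E) 𝓘(ℝ, E) ∞ F (g z)) :
    ContDiffAt ℝ ∞ (rep x F g) (ch E x z) := by
  rw [← contMDiffAt_iff_contDiffAt]
  have h1 : ContMDiffAt 𝓘(ℝ, E) 𝓘(ℝ, E) ∞ (F ∘ g) ((ch E x).symm (ch E x z)) := by
    rw [ch_symm hz]
    exact hF.comp z hg
  exact h1.comp _ (symm_smooth hz)

lemma jet_contAt (j : ℕ) {x z : M} (hz : z ∈ (chartAt E x).source) {F : M → E} {g : M → M}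
    (hg : ContMDiffAt 𝓘(ℝ, E) 𝓘(ℝ, E) ∞ g z) (hF : ContMDiffAt 𝓘(ℝ, E) 𝓘(ℝ, E) ∞ F (g z)) :
    ContinuousAt (jet j x F g) z :=
  ((rep_smooth hz hg hF).continuousAt_iteratedFDeriv (by exact_mod_cast le_top)).comp
    (contAt_ch hz)

lemma rep_congr {x z : M} (hz : z ∈ (chartAt E x).source) {F F' : M → E} {g : M → M}
    (hg : ContinuousAt g z) (hF : F =ᶠ[𝓝 (g z)] F') :
    rep x F g =ᶠ[𝓝 (ch E x z)] rep x F' g :=
  (hg.tendsto.comp (tendsto_symm hz)).eventually hF

lemma jet_congr (j : ℕ) {x z : M} (hz : z ∈ (chartAt E x).source) {F F' : M → E} {g : M → M}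
    (hg : ContinuousAt g z) (hF : F =ᶠ[𝓝 (g z)] F') : jet j x F g z = jet j x F' g z :=
  ((rep_congr hz hg hF).iteratedFDeriv ℝ j).eq_of_nhds

lemma rep_decomp {x x' y z : M} (hz : z ∈ (chartAt E x).source) (hz' : z ∈ (chartAt E x').source)
    (F : M → E) {g : M → M} (hg : ContinuousAt g z) (hy : g z ∈ (chartAt E y).source) :
    rep x' F g =ᶠ[𝓝 (ch E x' z)] (rep y F id) ∘ ((rep x (ch E y) g) ∘ (rep x' (ch E x) id)) := by
  have h1 : ∀ᶠ v in 𝓝 z, v ∈ (chartAt E x).source ∧ g v ∈ (chartAt E y).source :=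
    Eventually.and ((chartAt E x).open_source.mem_nhds hz)
      (hg.preimage_mem_nhds ((chartAt E y).open_source.mem_nhds hy))
  filter_upwards [(tendsto_symm hz').eventually h1] with w hw
  simp only [Function.comp_apply, rep, id]
  rw [ch_symm hw.1, ch_symm hw.2]

lemma tendsto_jet_change {α : Type*} {l : Filter α} {g : α → Df E M} {z : α → M} {f : Df E M}
    {z₀ x y : M} (hx : z₀ ∈ (chartAt E x).source) (hy : f z₀ ∈ (chartAt E y).source)
    (tz : Tendsto z l (𝓝 z₀)) (tg : Tendsto (fun a => g a (z a)) l (𝓝 (f z₀)))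
    (tj : ∀ j, Tendsto (fun a => jet j x (ch E y) (g a) (z a)) l (𝓝 (jet j x (ch E y) f z₀)))
    {x' : M} (hx' : z₀ ∈ (chartAt E x').source) {F : M → E}
    (hF : ContMDiffAt 𝓘(ℝ, E) 𝓘(ℝ, E) ∞ F (f z₀)) (k : ℕ) :
    Tendsto (fun a => jet k x' F (g a) (z a)) l (𝓝 (jet k x' F f z₀)) := by
  have hk : ((k : ℕ) : WithTop ℕ∞) ≤ ∞ := by exact_mod_cast le_top
  have e1 : ∀ᶠ a in l, z a ∈ (chartAt E x).source :=
    tz.eventually ((chartAt E x).open_source.mem_nhds hx)
  have e2 : ∀ᶠ a in l, z a ∈ (chartAt E x').source :=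
    tz.eventually ((chartAt E x').open_source.mem_nhds hx')
  have e3 : ∀ᶠ a in l, g a (z a) ∈ (chartAt E y).source :=
    tg.eventually ((chartAt E y).open_source.mem_nhds hy)
  have sm : ∀ {v : M}, v ∈ (chartAt E x).source → v ∈ (chartAt E x').source →
      ContDiffAt ℝ ∞ (rep x' (ch E x) id) (ch E x' v) := fun h1 h2 =>
    rep_smooth h2 contMDiffAt_id (contMDiffAt_extChartAt' h1)
  have sg : ∀ (g : Df E M) {v : M}, v ∈ (chartAt E x).source → g v ∈ (chartAt E y).source →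
      ContDiffAt ℝ ∞ (rep x (ch E y) g) (ch E x v) := fun g _ h1 h2 =>
    rep_smooth h1 (g.contMDiff _) (contMDiffAt_extChartAt' h2)
  have t1 : Tendsto (fun a => ch E x' (z a)) l (𝓝 (ch E x' z₀)) := (contAt_ch hx').tendsto.comp tz
  have inner : ∀ j, Tendsto (fun a => iteratedFDeriv ℝ j
      ((rep x (ch E y) (g a)) ∘ (rep x' (ch E x) id)) (ch E x' (z a))) l
      (𝓝 (iteratedFDeriv ℝ j ((rep x (ch E y) f) ∘ (rep x' (ch E x) id)) (ch E x' z₀))) := by
    intro j
    have hj : ((j : ℕ) : WithTop ℕ∞) ≤ ∞ := by exact_mod_cast le_top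
    apply tendsto_iteratedFDeriv_comp (v := fun a => rep x (ch E y) (g a))
      (u := fun _ => rep x' (ch E x) id)
    · filter_upwards [e1, e2, e3] with a h1 h2 h3
      rw [rep_ch h2]
      exact (sg _ h1 h3).of_le hj
    · filter_upwards [e1, e2] with a h1 h2
      exact (sm h1 h2).of_le hj
    · rw [rep_ch hx']
      exact (sg _ hx hy).of_le hj
    · exact (sm hx hx').of_le hj
    · intro i _
      rw [rep_ch hx']
      refine (tj i).congr' ?_
      filter_upwards [e2] with a h2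
      rw [rep_ch h2]
      rfl
    · intro i _
      exact ((sm hx hx').continuousAt_iteratedFDeriv (by exact_mod_cast le_top)).tendsto.comp t1
  have pt : ∀ (g : Df E M) {v : M}, v ∈ (chartAt E x).source → v ∈ (chartAt E x').source →
      ((rep x (ch E y) g) ∘ (rep x' (ch E x) id)) (ch E x' v) = ch E y (g v) := by
    intro g v h1 h2
    rw [Function.comp_apply, rep_ch h2, id, rep_ch h1]
  have sF : ContDiffAt ℝ ∞ (rep y F id) (ch E y (f z₀)) := rep_smooth hy contMDiffAt_id hF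
  have t2 : Tendsto (fun a => ch E y (g a (z a))) l (𝓝 (ch E y (f z₀))) :=
    (contAt_ch hy).tendsto.comp tg
  have t3 : Tendsto (fun a => ((rep x (ch E y) (g a)) ∘ (rep x' (ch E x) id)) (ch E x' (z a))) l
      (𝓝 (ch E y (f z₀))) := by
    refine t2.congr' ?_
    filter_upwards [e1, e2] with a h1 h2
    rw [pt _ h1 h2]
  have outer := tendsto_iteratedFDeriv_comp (l := l) (k := k) (v := fun _ => rep y F id)
    (u := fun a => (rep x (ch E y) (g a)) ∘ (rep x' (ch E x) id)) (w := fun a => ch E x' (z a))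
    (v₀ := rep y F id) (u₀ := (rep x (ch E y) f) ∘ (rep x' (ch E x) id)) (w₀ := ch E x' z₀)
    (t3.eventually ((sF.of_le hk).eventually (by simp)))
    (by
      filter_upwards [e1, e2, e3] with a h1 h2 h3
      refine ContDiffAt.comp _ ?_ ((sm h1 h2).of_le hk)
      rw [rep_ch h2]
      exact (sg _ h1 h3).of_le hk)
    (by rw [pt _ hx hx']; exact sF.of_le hk)
    (by
      refine ContDiffAt.comp _ ?_ ((sm hx hx').of_le hk)
      rw [rep_ch hx']
      exact (sg _ hx hy).of_le hk)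
    (by
      intro j _
      rw [pt _ hx hx']
      exact (sF.continuousAt_iteratedFDeriv (by exact_mod_cast le_top)).tendsto.comp t3)
    (fun j _ => inner j)
  unfold jet
  rw [((rep_decomp hx hx' F f.continuous.continuousAt hy).iteratedFDeriv ℝ k).eq_of_nhds]
  refine outer.congr' ?_
  filter_upwards [e1, e2, e3] with a h1 h2 h3
  rw [((rep_decomp h1 h2 F (g a).continuous.continuousAt h3).iteratedFDeriv ℝ k).eq_of_nhds]

/-- Subbasic open sets. -/
def sub (f : Df E M) (x y : M) (K : Set M) (k : ℕ) (ε : ℝ) : Set (Df E M) :=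
  {g | (fun z : M => g z) '' K ⊆ (chartAt E y).source ∧
    ∀ j ≤ k, ∀ z ∈ K, ‖jet j x (ch E y) g z - jet j x (ch E y) f z‖ < ε}

/-- The `C^∞` topology. -/
@[reducible] def tau (E : Type) [NormedAddCommGroup E] [NormedSpace ℝ E] (M : Type)
    [TopologicalSpace M] [ChartedSpace E M] : TopologicalSpace (Df E M) :=
  TopologicalSpace.generateFrom {S | ∃ (f : Df E M) (x y : M) (K : Set M) (k : ℕ) (ε : ℝ),
    IsCompact K ∧ K ⊆ (chartAt E x).source ∧ (fun z : M => f z) '' K ⊆ (chartAt E y).source ∧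
      0 < ε ∧ S = sub f x y K k ε}

attribute [local instance] tau

/-- Continuous convergence of all jets. -/
def CC {α : Type*} (l : Filter α) (g : α → Df E M) (f : Df E M) : Prop :=
  ∀ z₀ : M, Tendsto (fun p : α × M => g p.1 p.2) (l ×ˢ 𝓝 z₀) (𝓝 (f z₀)) ∧
    ∀ (j : ℕ) (x : M) (F : M → E), z₀ ∈ (chartAt E x).source →
      ContMDiffAt 𝓘(ℝ, E) 𝓘(ℝ, E) ∞ F (f z₀) →
      Tendsto (fun p : α × M => jet j x F (g p.1) p.2) (l ×ˢ 𝓝 z₀) (𝓝 (jet j x F f z₀))

lemma CC.tendsto {α : Type*} {l : Filter α} {g : α → Df E M} {f : Df E M} (h : CC l g f) :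
    Tendsto g l (𝓝 f) := by
  rw [TopologicalSpace.tendsto_nhds_generateFrom_iff]
  rintro _ ⟨f', x, y, K, k, ε, hK, hKx, hf', -, rfl⟩ hf
  have key : {p : α × M | g p.1 p.2 ∈ (chartAt E y).source ∧ ∀ j ∈ Finset.range (k + 1),
      ‖jet j x (ch E y) (g p.1) p.2 - jet j x (ch E y) f' p.2‖ < ε} ∈ l ×ˢ 𝓝ˢ K := by
    apply hK.mem_prod_nhdsSet_of_forall
    intro z hz
    have hy : f z ∈ (chartAt E y).source := hf.1 ⟨z, hz, rfl⟩
    have hy' : f' z ∈ (chartAt E y).source := hf' ⟨z, hz, rfl⟩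
    refine Eventually.and ((h z).1.eventually ((chartAt E y).open_source.mem_nhds hy)) ?_
    rw [Finset.eventually_all]
    intro j hj
    have h1 := (h z).2 j x (ch E y) (hKx hz) (contMDiffAt_extChartAt' hy)
    have h2 := (jet_contAt j (hKx hz) (f'.contMDiff z) (contMDiffAt_extChartAt' hy')).tendsto.comp
      (tendsto_snd (f := l) (g := 𝓝 z))
    exact (h1.sub h2).norm.eventually_lt tendsto_const_nhds
      (hf.2 j (Nat.lt_succ_iff.1 (Finset.mem_range.1 hj)) z hz)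
  obtain ⟨s, hs, t, ht, hst⟩ := mem_prod_iff.1 key
  filter_upwards [hs] with a ha
  have h3 := fun z (hz : z ∈ K) => hst (mk_mem_prod ha (subset_of_mem_nhdsSet ht hz))
  refine ⟨?_, fun j hj z hz => (h3 z hz).2 j (Finset.mem_range.2 (Nat.lt_succ_of_le hj))⟩
  rintro _ ⟨z, hz, rfl⟩
  exact (h3 z hz).1

lemma CC_nhds [LocallyCompactSpace M] (f : Df E M) : CC (𝓝 f) id f := by
  intro z₀
  have hx : z₀ ∈ (chartAt E z₀).source := mem_chart_source E z₀
  have hy : f z₀ ∈ (chartAt E (f z₀)).source := mem_chart_source E _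
  obtain ⟨K, hK, hKs, hKc⟩ := local_compact_nhds (inter_mem
    ((chartAt E z₀).open_source.mem_nhds hx)
    (f.continuous.continuousAt.preimage_mem_nhds ((chartAt E (f z₀)).open_source.mem_nhds hy)))
  have hs : ∀ k ε, 0 < ε → sub f z₀ (f z₀) K k ε ∈ 𝓝 f := by
    intro k ε hε
    have h1 : (fun z : M => f z) '' K ⊆ (chartAt E (f z₀)).source := by
      rintro _ ⟨z, hz, rfl⟩
      exact (hKs hz).2
    apply IsOpen.mem_nhds
    · exact TopologicalSpace.isOpen_generateFrom_of_mem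
        ⟨f, z₀, f z₀, K, k, ε, hKc, fun z hz => (hKs hz).1, h1, hε, rfl⟩
    · exact ⟨h1, fun j _ z _ => by simpa using hε⟩
  have tj : ∀ j, Tendsto (fun p : Df E M × M => jet j z₀ (ch E (f z₀)) p.1 p.2) (𝓝 f ×ˢ 𝓝 z₀)
      (𝓝 (jet j z₀ (ch E (f z₀)) f z₀)) := by
    intro j
    have h2 := (jet_contAt j hx (f.contMDiff z₀) (contMDiffAt_extChartAt' hy)).tendsto.comp
      (tendsto_snd (f := 𝓝 f) (g := 𝓝 z₀))
    have h3 : Tendsto (fun p : Df E M × M => jet j z₀ (ch E (f z₀)) p.1 p.2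
        - jet j z₀ (ch E (f z₀)) f p.2) (𝓝 f ×ˢ 𝓝 z₀) (𝓝 0) := by
      rw [NormedAddGroup.tendsto_nhds_zero]
      intro ε hε
      filter_upwards [prod_mem_prod (hs j ε hε) hK] with p hp
      exact hp.1.2 j le_rfl p.2 hp.2
    have h4 := h3.add h2
    simpa using h4
  have tg : Tendsto (fun p : Df E M × M => p.1 p.2) (𝓝 f ×ˢ 𝓝 z₀) (𝓝 (f z₀)) := by
    have h1 := ((continuousMultilinearCurryFin0 ℝ E E).continuous.tendsto _).comp (tj 0)
    have h2 : (continuousMultilinearCurryFin0 ℝ E E) (jet 0 z₀ (ch E (f z₀)) f z₀)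
        = ch E (f z₀) (f z₀) := rep_ch hx _ _
    rw [h2] at h1
    refine ((tendsto_symm hy).comp h1).congr' ?_
    filter_upwards [prod_mem_prod (hs 0 1 one_pos) hK] with p hp
    have h3 : (continuousMultilinearCurryFin0 ℝ E E) (jet 0 z₀ (ch E (f z₀)) p.1 p.2)
        = ch E (f z₀) (p.1 p.2) := rep_ch (hKs hp.2).1 _ _
    simp only [Function.comp_apply]
    rw [h3, ch_symm (hp.1.1 ⟨p.2, hp.2, rfl⟩)]
  exact ⟨tg, fun j x F h1 h2 => tendsto_jet_change (g := Prod.fst) hx hy tendsto_snd tg tj h1 h2 j⟩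

end Pool.Agent.H488Z.Gen
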