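import Pool.Agent.H488Z.Gen.Jet
import Pool.Agent.H488Z.Gen.DST
import Pool.Agent.H488Z.Ros.Homeo

set_option autoImplicit false
set_option linter.unusedSectionVars false

namespace Pool.Agent.H488Z.Gen

open Set Topology Filter TopologicalSpace Pool.Agent.H488Z.Ros
open scoped ContDiff Manifold

variable {E : Type} [NormedAddCommGroup E] [NormedSpace ℝ E] [FiniteDimensional ℝ E]
  {M : Type} [MetricSpace M] [CompactSpace M] [ChartedSpace E M] [IsManifold 𝓘(ℝ, E) ∞ M]

attribute [local instance] tau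

/-- A finite family of source charts with compact sets, and of globalised target charts. -/
structure Cover (S T : Finset M) (K : M → Compacts M) (L : M → Set M) (F : M → M → E) : Prop where
  Ks : ∀ x, (K x : Set M) ⊆ (chartAt E x).source
  Kcov : ∀ z, ∃ x ∈ S, z ∈ interior (K x : Set M)
  Lc : ∀ y, IsClosed (L y)
  Ls : ∀ y, L y ⊆ (chartAt E y).source
  Lcov : ∀ z, ∃ y ∈ T, z ∈ L y
  Fs : ∀ y, ContMDiff 𝓘(ℝ, E) 𝓘(ℝ, E) ∞ (F y)
  Feq : ∀ y, ∀ z ∈ L y, F y =ᶠ[𝓝 z] ch E y

lemma exists_cover : ∃ (S T : Finset M) (K : M → Compacts M) (L : M → Set M) (F : M → M → E),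
    Cover S T K L F := by
  have h1 : ∀ x : M, ∃ K : Compacts M, (K : Set M) ∈ 𝓝 x ∧ (K : Set M) ⊆ (chartAt E x).source := by
    intro x
    obtain ⟨K, h1, h2, h3⟩ := local_compact_nhds (chart_source_mem_nhds E x)
    exact ⟨⟨K, h3⟩, h1, h2⟩
  choose K hK1 hK2 using h1
  have h2 : ∀ y : M, ∃ (L : Set M) (F : M → E), L ∈ 𝓝 y ∧ IsClosed L ∧
      L ⊆ (chartAt E y).source ∧ ContMDiff 𝓘(ℝ, E) 𝓘(ℝ, E) ∞ F ∧
      ∀ z ∈ L, F =ᶠ[𝓝 z] ch E y := by
    intro y
    obtain ⟨b⟩ : Nonempty (SmoothBumpFunction 𝓘(ℝ, E) y) := inferInstance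
    obtain ⟨L, h1, h2, h3⟩ := exists_mem_nhds_isClosed_subset
      (inter_mem (chart_source_mem_nhds E y) b.eventuallyEq_one.eventually_nhds)
    refine ⟨L, fun z => b z • ch E y z, h1, h2, fun z hz => (h3 hz).1,
      b.contMDiff_smul contMDiffOn_extChartAt, fun z hz => ?_⟩
    filter_upwards [(h3 hz).2] with v hv
    rw [hv]
    simp
  choose L F hL1 hL2 hL3 hF1 hF2 using h2
  obtain ⟨S, hS⟩ := CompactSpace.elim_nhds_subcover (fun x => interior (K x : Set M))
    (fun x => interior_mem_nhds.2 (hK1 x))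
  obtain ⟨T, hT⟩ := CompactSpace.elim_nhds_subcover L hL1
  refine ⟨S, T, K, L, F, hK2, fun z => ?_, hL2, hL3, fun z => ?_, hF1, hF2⟩
  · have : z ∈ ⋃ x ∈ S, interior (K x : Set M) := hS ▸ mem_univ z
    simpa using this
  · have : z ∈ ⋃ x ∈ T, L x := hT ▸ mem_univ z
    simpa using this

/-- A diffeomorphism as an element of the homeomorphism group. -/
noncomputable def toU (g : Df E M) : (End M)ˣ := ofHomeo g.toHomeomorph

lemma toU_smul (g : Df E M) (z : M) : toU g • z = g z := rfl

lemma tendsto_units {α : Type} {l : Filter α} {u : α → (End M)ˣ} {g : (End M)ˣ}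
    (h : Tendsto (fun a => (u a : End M)) l (𝓝 (g : End M))) : Tendsto u l (𝓝 g) := by
  have h1 : Tendsto (fun a => g⁻¹ * u a) l (𝓝 1) := by
    apply tendsto_of_disp
    have h2 : Tendsto (fun a => ((g⁻¹ : (End M)ˣ) : End M) * (u a : End M)) l (𝓝 1) := by
      have := h.const_mul ((g⁻¹ : (End M)ˣ) : End M)
      rwa [Units.inv_mul] at this
    exact tendsto_iff_dist_tendsto_zero.1 h2
  have h3 := h1.const_mul g
  simpa using h3

lemma continuous_ev : Continuous fun p : Df E M × M => p.1 p.2 := by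
  rw [continuous_iff_continuousAt]
  intro p
  have := (CC_nhds p.1 p.2).1
  rw [← nhds_prod_eq] at this
  exact this

lemma continuous_toU : Continuous (toU : Df E M → (End M)ˣ) := by
  have h : Continuous fun g : Df E M => ((toU g : End M).map) :=
    ContinuousMap.continuous_of_continuous_uncurry _ continuous_ev
  rw [continuous_iff_continuousAt]
  intro f
  exact tendsto_units (h.tendsto f)

variable {S T : Finset M} {K : M → Compacts M} {L : M → Set M} {F : M → M → E}

lemma Cover.continuous_jet (hc : Cover S T K L F) (x y : M) (j : ℕ) :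
    Continuous fun p : Df E M × K x => jet j x (F y) p.1 p.2 := by
  rw [continuous_iff_continuousAt]
  intro p
  have h1 := (CC_nhds p.1 p.2).2 j x (F y) (hc.Ks x p.2.2) (hc.Fs y _)
  rw [← nhds_prod_eq] at h1
  have h2 : Continuous fun p : Df E M × K x => (p.1, (p.2 : M)) := by fun_prop
  exact h1.comp (h2.tendsto p)

/-- The ambient Polish space. -/
abbrev PP (E : Type) [NormedAddCommGroup E] [NormedSpace ℝ E] (S T : Finset M)
    (K : M → Compacts M) : Type :=
  (End M)ˣ × ∀ i : S × T × ℕ, C(K i.1, E [×i.2.2]→L[ℝ] E)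

instance (j : ℕ) : FiniteDimensional ℝ (E [×j]→L[ℝ] E) :=
  Module.Finite.of_injective ContinuousMultilinearMap.toMultilinearMapLinear
    ContinuousMultilinearMap.toMultilinearMap_injective

instance : PolishSpace (PP E S T K) := by
  have : ∀ i : S × T × ℕ, PolishSpace C(K i.1, E [×i.2.2]→L[ℝ] E) := by
    intro i
    have := FiniteDimensional.proper_real (E [×i.2.2]→L[ℝ] E)
    infer_instance
  infer_instance

/-- The embedding. -/
noncomputable def Cover.Phi (hc : Cover S T K L F) (g : Df E M) : PP E S T K :=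
  (toU g, fun i => ⟨fun z => jet i.2.2 (i.1 : M) (F i.2.1) g z,
    (hc.continuous_jet i.1 i.2.1 i.2.2).comp (Continuous.prodMk_right g)⟩)

lemma Cover.continuous_Phi (hc : Cover S T K L F) : Continuous hc.Phi :=
  continuous_toU.prodMk (continuous_pi fun i =>
    ContinuousMap.continuous_of_continuous_uncurry _ (hc.continuous_jet i.1 i.2.1 i.2.2))

lemma Cover.tendsto_of_data (hc : Cover S T K L F) {α : Type} {l : Filter α} {g : α → Df E M}
    {f : Df E M} {p : PP E S T K} (hp : Tendsto (fun a => hc.Phi (g a)) l (𝓝 p))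
    (h1 : ∀ z, p.1 • z = f z)
    (h2 : ∀ (i : S × T × ℕ) (z : K i.1), (z : M) ∈ interior (K i.1 : Set M) →
      p.2 i z = jet i.2.2 (i.1 : M) (F i.2.1) f z) : Tendsto g l (𝓝 f) := by
  apply CC.tendsto
  intro z₀
  have tg : Tendsto (fun q : α × M => g q.1 q.2) (l ×ˢ 𝓝 z₀) (𝓝 (f z₀)) := by
    have h3 := (((continuous_fst.tendsto p).comp hp).comp (tendsto_fst (g := 𝓝 z₀))).smul
      (tendsto_snd (f := l) (g := 𝓝 z₀))
    rw [h1] at h3
    exact h3
  refine ⟨tg, fun j x' F' hx' hF' => ?_⟩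
  obtain ⟨x, hxS, hx⟩ := hc.Kcov z₀
  obtain ⟨y, hyT, hy⟩ := hc.Lcov (f z₀)
  have hxs := hc.Ks x (interior_subset hx)
  refine tendsto_jet_change (g := fun q : α × M => g q.1) hxs (hc.Ls y hy) tendsto_snd tg ?_ hx'
    hF' j
  intro k
  let i : S × T × ℕ := (⟨x, hxS⟩, ⟨y, hyT⟩, k)
  let z₁ : K x := ⟨z₀, interior_subset hx⟩
  have h4 : Tendsto (fun q : α × K x => jet k x (F y) (g q.1) q.2) (l ×ˢ 𝓝 z₁)
      (𝓝 (jet k x (F y) f z₀)) := by
    have h5 : Tendsto (fun a => (hc.Phi (g a)).2 i) l (𝓝 (p.2 i)) :=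
      (((continuous_apply i).comp continuous_snd).tendsto p).comp hp
    have h6 := (continuous_eval.tendsto (p.2 i, z₁)).comp
      ((h5.comp tendsto_fst).prodMk_nhds (tendsto_snd (f := l) (g := 𝓝 z₁)))
    have h7 := h2 i z₁ hx
    simp only at h6
    rw [h7] at h6
    exact h6
  have h8 : Tendsto (fun q : α × M => jet k x (F y) (g q.1) q.2) (l ×ˢ 𝓝 z₀)
      (𝓝 (jet k x (F y) f z₀)) := by
    have h9 : map (Subtype.val : K x → M) (𝓝 z₁) = 𝓝 z₀ :=
      map_nhds_subtype_coe_eq_nhds z₁.2 (mem_interior_iff_mem_nhds.1 hx)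
    rw [← h9, prod_map_right, tendsto_map'_iff]
    exact h4
  rw [jet_congr k hxs f.continuous.continuousAt (hc.Feq y _ hy)] at h8
  refine h8.congr' ?_
  filter_upwards [tg.eventually (hc.Feq y _ hy).eventually_nhds,
    tendsto_snd.eventually ((chartAt E x).open_source.mem_nhds hxs)] with q hq1 hq2
  exact jet_congr k hq2 (g q.1).continuous.continuousAt hq1

lemma Cover.isEmbedding_Phi (hc : Cover S T K L F) : IsEmbedding hc.Phi := by
  refine ⟨?_, fun g g' h => ?_⟩
  · rw [isInducing_iff_nhds]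
    intro f
    apply le_antisymm (hc.continuous_Phi.tendsto f).le_comap
    exact hc.tendsto_of_data (g := id) tendsto_comap (fun _ => rfl) (fun _ _ _ => rfl)
  · ext z
    have h1 : toU g = toU g' := congrArg Prod.fst h
    rw [← toU_smul, h1, toU_smul]

/-- The open set of nondegenerate data. -/
def OO (E : Type) [NormedAddCommGroup E] [NormedSpace ℝ E] (S T : Finset M)
    (K : M → Compacts M) (L : M → Set M) : Set (PP E S T K) :=
  {p | ∀ (i : S × T) (z : K i.1), p.1 • (z : M) ∈ L i.2 →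
    Function.Injective (continuousMultilinearCurryFin1 ℝ E E (p.2 (i.1, i.2, 1) z))}

lemma Cover.isOpen_OO (hc : Cover S T K L F) : IsOpen (OO E S T K L) := by
  rw [isOpen_iff_mem_nhds]
  intro p hp
  have key : ∀ i : S × T, ∀ᶠ q : PP E S T K in 𝓝 p, ∀ z ∈ (univ : Set (K i.1)),
      q.1 • (z : M) ∈ L i.2 →
      Function.Injective (continuousMultilinearCurryFin1 ℝ E E (q.2 (i.1, i.2, 1) z)) := by
    intro i
    apply isCompact_univ.eventually_forall_of_forall_eventually
    intro z _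
    have c1 : Continuous fun q : PP E S T K × K i.1 => q.1.1 • (q.2 : M) :=
      (continuous_fst.comp continuous_fst).smul (continuous_subtype_val.comp continuous_snd)
    have c2 : Continuous fun q : PP E S T K × K i.1 =>
        continuousMultilinearCurryFin1 ℝ E E (q.1.2 (i.1, i.2, 1) q.2) :=
      (continuousMultilinearCurryFin1 ℝ E E).continuous.comp (continuous_eval.comp
        ((((continuous_apply (i.1, i.2, 1)).comp continuous_snd).comp continuous_fst).prodMk
          continuous_snd))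
    by_cases h : p.1 • (z : M) ∈ L i.2
    · filter_upwards [(ContinuousLinearMap.isOpen_injective.preimage c2).mem_nhds
        (show (p, z) ∈ _ from hp i z h)] with q hq _
      exact hq
    · filter_upwards [((hc.Lc i.2).isOpen_compl.preimage c1).mem_nhds
        (show (p, z) ∈ _ from h)] with q hq hq'
      exact absurd hq' hq
  filter_upwards [eventually_all.2 key] with q hq i z
  exact hq i z (mem_univ _)

lemma curry_jet (x : M) (F : M → E) (g : M → M) (z : M) :
    continuousMultilinearCurryFin1 ℝ E E (jet 1 x F g z) = fderiv ℝ (rep x F g) (ch E x z) := by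
  ext v
  simp [jet]

lemma Cover.Phi_mem (hc : Cover S T K L F) (g : Df E M) : hc.Phi g ∈ OO E S T K L := by
  intro i z hz
  have hx := hc.Ks _ z.2
  have hy : g z ∈ (chartAt E (i.2 : M)).source := hc.Ls _ hz
  show Function.Injective (continuousMultilinearCurryFin1 ℝ E E (jet 1 (i.1 : M) (F i.2) g z))
  rw [jet_congr 1 hx g.continuous.continuousAt (hc.Feq _ _ hz), curry_jet]
  have s1 : ContDiffAt ℝ ∞ (rep (i.1 : M) (ch E (i.2 : M)) g) (ch E (i.1 : M) z) :=
    rep_smooth hx (g.contMDiff _) (contMDiffAt_extChartAt' hy)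
  have s2 : ContDiffAt ℝ ∞ (rep (i.2 : M) (ch E (i.1 : M)) g.symm)
      (rep (i.1 : M) (ch E (i.2 : M)) g (ch E (i.1 : M) z)) := by
    rw [rep_ch hx]
    exact rep_smooth hy (g.symm.contMDiff _) (contMDiffAt_extChartAt' (by simpa using hx))
  have e : (rep (i.2 : M) (ch E (i.1 : M)) g.symm) ∘ (rep (i.1 : M) (ch E (i.2 : M)) g)
      =ᶠ[𝓝 (ch E (i.1 : M) z)] id := by
    have h1 : ∀ᶠ v in 𝓝 (z : M), g v ∈ (chartAt E (i.2 : M)).source :=
      g.continuous.continuousAt.preimage_mem_nhds ((chartAt E (i.2 : M)).open_source.mem_nhds hy)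
    filter_upwards [(tendsto_symm hx).eventually h1, extChartAt_target_mem_nhds' (ch_mem hx)]
      with w hw hw'
    simp only [Function.comp_apply, rep, id]
    rw [ch_symm hw, g.symm_apply_apply, (ch E (i.1 : M)).right_inv hw']
  have h2 := fderiv_comp _ (s2.differentiableAt (by simp)) (s1.differentiableAt (by simp))
  rw [e.fderiv_eq, fderiv_id] at h2
  intro a b hab
  have h3 := congrArg (fun L : E →L[ℝ] E => L a) h2
  have h4 := congrArg (fun L : E →L[ℝ] E => L b) h2
  simp only [ContinuousLinearMap.id_apply, ContinuousLinearMap.comp_apply] at h3 h4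
  rw [h3, h4, hab]

lemma Cover.mem_range (hc : Cover S T K L F) {p : PP E S T K} (hp : p ∈ closure (range hc.Phi))
    (hO : p ∈ OO E S T K L) : p ∈ range hc.Phi := by
  classical
  have := FiniteDimensional.complete ℝ E
  obtain ⟨q, hq, hqp⟩ := mem_closure_iff_seq_limit.1 hp
  choose g hg using hq
  have tp : Tendsto (fun n => hc.Phi (g n)) atTop (𝓝 p) := by simpa only [hg] using hqp
  let h : M ≃ₜ M := Homeomorph.smul p.1
  have th : ∀ z, Tendsto (fun n => g n z) atTop (𝓝 (h z)) := fun z =>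
    ((continuous_fst.tendsto p).comp tp).smul_const z
  have A : ∀ (x : S) (y : T) (z : K x), (z : M) ∈ interior (K x : Set M) →
      ContDiffAt ℝ ∞ (rep (x : M) (F y) h) (ch E (x : M) z) ∧
        ∀ j, p.2 (x, y, j) z = jet j (x : M) (F y) h z := by
    intro x y z hz
    let U : Set E := (ch E (x : M)).target ∩ (ch E (x : M)).symm ⁻¹' interior (K x : Set M)
    have hU : IsOpen U :=
      (continuousOn_extChartAt_symm (x : M)).isOpen_inter_preimage
        (isOpen_extChartAt_target _) isOpen_interior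
    have hzU : ch E (x : M) z ∈ U :=
      ⟨ch_mem (hc.Ks _ z.2), by rw [mem_preimage, ch_symm (hc.Ks _ z.2)]; exact hz⟩
    have key := smooth_limit hU (r := fun n => rep (x : M) (F y) (g n)) (r₀ := rep (x : M) (F y) h)
      (p := fun j w => if hw : (ch E (x : M)).symm w ∈ K x then p.2 (x, y, j) ⟨_, hw⟩ else 0)
      (by
        intro n w hw
        have h1 := rep_smooth (hc.Ks _ (interior_subset hw.2)) ((g n).contMDiff _) (hc.Fs y _)
        rw [(ch E (x : M)).right_inv hw.1] at h1
        exact h1.contDiffWithinAt)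
      (by
        intro j
        rw [Metric.tendstoUniformlyOn_iff]
        intro ε hε
        have h5 : Tendsto (fun a => (hc.Phi (g a)).2 (x, y, j)) atTop (𝓝 (p.2 (x, y, j))) :=
          (((continuous_apply (x, y, j)).comp continuous_snd).tendsto p).comp tp
        filter_upwards [(Metric.tendsto_nhds (α := C(K (x : M), E [×j]→L[ℝ] E))).1 h5 ε hε]
          with n hn w hw
        have hw2 : (ch E (x : M)).symm w ∈ K x := interior_subset hw.2
        rw [dif_pos hw2, dist_comm]
        have h6 := (ContinuousMap.dist_apply_le_dist ⟨_, hw2⟩).trans_lt hn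
        have h7 : (hc.Phi (g n)).2 (x, y, j) ⟨_, hw2⟩
            = iteratedFDeriv ℝ j (rep (x : M) (F y) (g n)) w := by
          show iteratedFDeriv ℝ j _ (ch E (x : M) ((ch E (x : M)).symm w)) = _
          rw [(ch E (x : M)).right_inv hw.1]
        rwa [h7] at h6)
      (fun w _ => ((hc.Fs y).continuous.tendsto _).comp (th _))
    refine ⟨key.1.contDiffAt (hU.mem_nhds hzU), fun j => ?_⟩
    have h8 := key.2 j _ hzU
    have hw2 : (ch E (x : M)).symm (ch E (x : M) z) ∈ K x := interior_subset hzU.2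
    rw [dif_pos hw2] at h8
    rw [jet, h8]
    congr 1
    exact Subtype.ext (ch_symm (hc.Ks _ z.2)).symm
  have B : ∀ z : M, ∃ x y : M, z ∈ (chartAt E x).source ∧ h z ∈ (chartAt E y).source ∧
      ContDiffAt ℝ ∞ (rep x (ch E y) h) (ch E x z) ∧
      Function.Injective (fderiv ℝ (rep x (ch E y) h) (ch E x z)) := by
    intro z
    obtain ⟨x, hxS, hx⟩ := hc.Kcov z
    obtain ⟨y, hyT, hy⟩ := hc.Lcov (h z)
    have hxs := hc.Ks x (interior_subset hx)
    obtain ⟨h1, h2⟩ := A ⟨x, hxS⟩ ⟨y, hyT⟩ ⟨z, interior_subset hx⟩ hx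
    have e := rep_congr hxs h.continuous.continuousAt (hc.Feq y _ hy)
    refine ⟨x, y, hxs, hc.Ls y hy, h1.congr_of_eventuallyEq e.symm, ?_⟩
    have h3 := hO (⟨x, hxS⟩, ⟨y, hyT⟩) ⟨z, interior_subset hx⟩ hy
    rw [h2 1, curry_jet] at h3
    rw [← e.fderiv_eq]
    exact h3
  have C1 : ContMDiff 𝓘(ℝ, E) 𝓘(ℝ, E) ∞ h := by
    intro z
    obtain ⟨x, y, hx, hy, h1, -⟩ := B z
    rw [contMDiffAt_iff_of_mem_source hx hy]
    exact ⟨h.continuous.continuousAt, h1.contDiffWithinAt⟩
  have C2 : ContMDiff 𝓘(ℝ, E) 𝓘(ℝ, E) ∞ h.symm := by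
    intro z'
    obtain ⟨z, rfl⟩ := h.surjective z'
    obtain ⟨x, y, hx, hy, h1, h2⟩ := B z
    rw [contMDiffAt_iff_of_mem_source (y := x) hy (by simpa using hx)]
    refine ⟨h.symm.continuous.continuousAt, ContDiffAt.contDiffWithinAt ?_⟩
    let e : OpenPartialHomeomorph E E :=
      ((chartAt E x).symm.trans h.toOpenPartialHomeomorph).trans (chartAt E y)
    have he : (e : E → E) = rep x (ch E y) h := rfl
    have hs : e.symm (ch E y (h z)) = ch E x z := by
      show ch E x (h.symm ((ch E y).symm (ch E y (h z)))) = _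
      rw [ch_symm hy, h.symm_apply_apply]
    let f' : E ≃L[ℝ] E := (LinearEquiv.ofInjectiveEndo
      (fderiv ℝ (rep x (ch E y) h) (ch E x z)).toLinearMap h2).toContinuousLinearEquiv
    have hf' : (f' : E →L[ℝ] E) = fderiv ℝ (rep x (ch E y) h) (ch E x z) := by
      ext v
      rfl
    have h3 := e.contDiffAt_symm (𝕜 := ℝ) (n := ∞) (f₀' := f') (a := ch E y (h z))
      (by simp [e, hx, hy])
      (by rw [hs, hf', he]; exact (h1.differentiableAt (by simp)).hasFDerivAt)
      (by rw [hs, he]; exact h1)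
    exact h3
  let f : Df E M := ⟨h.toEquiv, C1, C2⟩
  have tf : Tendsto g atTop (𝓝 f) :=
    hc.tendsto_of_data tp (fun _ => rfl) (fun i z hz => (A i.1 i.2.1 z hz).2 i.2.2)
  exact ⟨f, tendsto_nhds_unique ((hc.continuous_Phi.tendsto f).comp tf) tp⟩

theorem polish_Df : PolishSpace (Df E M) := by
  obtain ⟨S, T, K, L, F, hc⟩ := exists_cover (E := E) (M := M)
  have := hc.isOpen_OO.polishSpace
  let e : Df E M → OO E S T K L := fun g => ⟨hc.Phi g, hc.Phi_mem g⟩
  have he : IsEmbedding e := hc.isEmbedding_Phi.codRestrict _ hc.Phi_mem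
  refine IsClosedEmbedding.polishSpace (f := e) ⟨he, ?_⟩
  have : range e = Subtype.val ⁻¹' closure (range hc.Phi) := by
    ext p
    constructor
    · rintro ⟨g, rfl⟩
      exact subset_closure ⟨g, rfl⟩
    · intro hp
      obtain ⟨g, hg⟩ := hc.mem_range hp p.2
      exact ⟨g, Subtype.ext hg⟩
  rw [this]
  exact isClosed_closure.preimage continuous_subtype_val

theorem generic_conj : ∃ G : Set (Df E M), IsGδ G ∧ Dense G ∧
    @MeasurableSet _ (borel (Df E M × Df E M))
      {p | p.1 ∈ G ∧ p.2 ∈ G ∧ ∃ h : M ≃ₜ M, ∀ z : M, h (p.1 z) = p.2 (h z)} := by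
  have := polish_Df (E := E) (M := M)
  let act : MulAction (End M)ˣ (End M)ˣ :=
    { smul := fun h y => h * y * h⁻¹
      one_smul := fun y => by
        show 1 * y * 1⁻¹ = y
        simp
      mul_smul := fun a b y => by
        show a * b * y * (a * b)⁻¹ = a * (b * y * b⁻¹) * a⁻¹
        group }
  have cs : @ContinuousSMul (End M)ˣ (End M)ˣ act.toSMul _ _ :=
    @ContinuousSMul.mk _ _ act.toSMul _ _ (by
      show Continuous fun p : (End M)ˣ × (End M)ˣ => p.1 * p.2 * p.1⁻¹
      fun_prop)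
  obtain ⟨G, h1, h2, h3⟩ := @generic_borel _ (End M)ˣ (End M)ˣ _ _ _ _ _ _ _ _ act cs
    (toU : Df E M → (End M)ˣ) continuous_toU
  refine ⟨G, h1, h2, ?_⟩
  convert h3 using 5 with p
  constructor
  · rintro ⟨h, hh⟩
    refine ⟨ofHomeo h, ?_⟩
    show ofHomeo h * toU p.1 * (ofHomeo h)⁻¹ = toU p.2
    rw [mul_inv_eq_iff_eq_mul]
    exact unit_ext hh
  · rintro ⟨h, hh⟩
    have hh' : h * toU p.1 * h⁻¹ = toU p.2 := hh
    rw [mul_inv_eq_iff_eq_mul] at hh'
    refine ⟨Homeomorph.smul h, fun z => ?_⟩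
    show h • toU p.1 • z = toU p.2 • h • z
    rw [← mul_smul, hh', mul_smul]

end Pool.Agent.H488Z.Gen
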